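import Pool.Agent.Helper79.AL.St2
import Pool.Agent.Helper8.OS.M_HEC

/-! # Project AL (owner helper79), module VPT: if `v_p` is fixed then `p` and `q` are not adjacent -/

set_option autoImplicit false

namespace Pool.Agent.Helper33.AL

open Matrix ComplexConjugate Pool.Agent.Helper94.YG
open Pool.Agent.Helper94.YF hiding StORB
open Pool.Agent.Helper89.OS Pool.Agent.Helper89.OC Pool.Agent.Helper79.AL

theorem hVPT : StVPT := by
  classical
  intro hA hB I _ _ Z p b b' X hL hb' hbb' hF l hl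
  have FA := hA I Z
  have FB := hB hA I Z
  have hp0 : (p : ℂ) ≠ 0 := by exact_mod_cast X.prime.ne_zero
  have hbi : b * b = b := hL.idp.idem
  have hSm := FA.Sm_eq b hbi
  have hu := FB.Sm b' _ hb' hF
  -- the sum with `y` on `t = 1`
  have hinv : ∀ c i, (fun i => if i = X.o then (1 : ℂ) else 0) (X.pi c i) =
      (fun i => if i = X.o then (1 : ℂ) else 0) i := by
    intro c i
    have : X.pi c i = X.o ↔ i = X.o := by
      constructor
      · intro h
        have h2 := congrArg (X.pi c⁻¹) h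
        rwa [← X.pi_mul, inv_mul_cancel, X.pi_one, X.pi_o] at h2
      · intro h
        rw [h, X.pi_o]
    simp only [this]
  have hHec := Pool.Agent.Helper8.OS.hHEC I p X (fun i => if i = X.o then (1 : ℂ) else 0) hinv
    (by
      intro i hi
      by_cases h : i = X.o
      · rw [h, X.t_o]
      · simp [h] at hi)
  have hsy : ∀ k, ∑ i, X.s k i * (if i = X.o then (1 : ℂ) else 0) = X.y k := by
    intro k
    simp [X.s_o]
  simp only [hsy] at hHec
  have hs : ∀ i k, Z.rho (s2 b) i k = X.s i k / p := by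
    intro i k
    rw [hL.s]
    field_simp
  have ht : ∀ i, X.t i = Z.tw b i := fun i => by rw [hL.t]
  have hy1 : ∀ j, X.t j ≠ 1 → ∑ k, Z.rho (s2 b) j k * (if X.t k = 1 then (X.y k : ℂ) else 0) =
      -Z.rho (s2 b) j Z.o := by
    intro j hj
    have hjo : j ≠ X.o := fun h => hj (by rw [h, X.t_o])
    have h1 := hHec j
    rw [if_neg hjo, if_neg hj] at h1
    have h2 : Z.rho (s2 b) j Z.o = X.y j / p := by rw [hs, ← hL.o, X.s_o]
    rw [h2]
    have h3 : ∑ k, Z.rho (s2 b) j k * (if X.t k = 1 then (X.y k : ℂ) else 0) =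
        (∑ k, if X.t k = 1 then X.s j k * (X.y k : ℂ) else 0) / p := by
      rw [Finset.sum_div]
      refine Finset.sum_congr rfl fun k _ => ?_
      rw [hs]
      split_ifs
      · ring
      · simp
    rw [h3, h1]
    ring
  have hval : (Z.rho Sm *ᵥ fun k => (vp X k : ℂ)) l = ((p : ℂ) + 1) * ((Z.d l : ℂ) / Z.n) := by
    have e1 : (Z.rho Sm *ᵥ fun k => (vp X k : ℂ)) l = (p : ℂ) * Z.rho Sm l Z.o -
        ∑ k, Z.rho Sm l k * (if X.t k = 1 then (X.y k : ℂ) else 0) := by
      simp only [Matrix.mulVec, dotProduct]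
      have : ∀ k, Z.rho Sm l k * (vp X k : ℂ) = (if k = Z.o then (p : ℂ) * Z.rho Sm l k else 0) -
          Z.rho Sm l k * (if X.t k = 1 then (X.y k : ℂ) else 0) := by
        intro k
        unfold vp
        rw [hL.o]
        split_ifs <;> push_cast <;> ring
      rw [Finset.sum_congr rfl fun k _ => this k, Finset.sum_sub_distrib]
      simp
    have e2 : ∑ k, Z.rho Sm l k * (if X.t k = 1 then (X.y k : ℂ) else 0) =
        ∑ j, Z.rho (s2 (1 - b)) l j *
          ∑ k, Z.rho (s2 b) j k * (if X.t k = 1 then (X.y k : ℂ) else 0) := by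
      rw [hSm]
      simp only [Matrix.mul_apply, Finset.sum_mul, Finset.mul_sum]
      rw [Finset.sum_comm]
      refine Finset.sum_congr rfl fun k _ => Finset.sum_congr rfl fun j _ => ?_
      ring
    have e3 : ∀ j, Z.rho (s2 (1 - b)) l j *
        ∑ k, Z.rho (s2 b) j k * (if X.t k = 1 then (X.y k : ℂ) else 0) =
        -(Z.rho (s2 (1 - b)) l j * Z.rho (s2 b) j Z.o) := by
      intro j
      by_cases h0 : Z.rho (s2 (1 - b)) l j = 0
      · rw [h0]; ring
      · have h1 := FA.supp b (1 - b) hbi (by linear_combination hbi)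
          (by linear_combination -hbi) l j h0
        have h2 : X.t j ≠ 1 := by
          rw [ht, ← h1, ← ht]; exact hl
        rw [hy1 j h2]; ring
    have e4 : ∑ j, Z.rho (s2 (1 - b)) l j * Z.rho (s2 b) j Z.o = Z.rho Sm l Z.o := by
      rw [hSm, Matrix.mul_apply]
    have e5 : Z.rho Sm l Z.o = (Z.d l : ℂ) / Z.n := by
      rw [Z.s_symm, Z.s_o]
    rw [e1, e2, Finset.sum_congr rfl fun j _ => e3 j, Finset.sum_neg_distrib, e4, e5]
    ring
  refine hu.2 l ?_
  rw [hval]
  have hd : (Z.d l : ℂ) ≠ 0 := by exact_mod_cast (Z.d_pos l).ne'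
  have hn : (Z.n : ℂ) ≠ 0 := by exact_mod_cast Z.n_pos.ne'
  have hp1 : (p : ℂ) + 1 ≠ 0 := by exact_mod_cast Nat.succ_ne_zero p
  exact mul_ne_zero hp1 (div_ne_zero hd hn)

end Pool.Agent.Helper33.AL
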